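import Pool.Agent.Kummer.Final

set_option autoImplicit false

namespace Pool.Agent.Results.MP_cd71ec_ag.KummerEmbDim

open Pool.Agent.Kummer

/-- Let `F` be a commutative formal group law of dimension `g` over a field of characteristic two,
for which multiplication by two is an isogeny (as for the formal group of an abelian variety of
dimension `g`).  Then the ring of invariants of the inverse of `F` acting on the ring of functions
`k[[x_1, ..., x_g]]` is a local ring of embedding dimension `2 ^ g - 1`. -/
theorem result (g : ℕ) (k : Type*) [Field k] [CharP k 2] (F : CommFormalGroupLaw g k)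
    (h : F.TwoIsogeny) :
    (IsLocalRing.maximalIdeal (fixedRing F.negHom)).spanFinrank = 2 ^ g - 1 ∧
    Module.finrank (IsLocalRing.ResidueField (fixedRing F.negHom))
      (IsLocalRing.CotangentSpace (fixedRing F.negHom)) = 2 ^ g - 1 :=
  ⟨F.spanFinrank_maximalIdeal h, F.finrank_cotangentSpace h⟩

end Pool.Agent.Results.MP_cd71ec_ag.KummerEmbDim
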